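import Mathlib
import Pool.Agent.N546.PN.Stm

/-!
# Project PN: conics with unit coefficients over the field of `p`-adic numbers (helper353)
-/

set_option autoImplicit false

namespace Pool.Agent.N353.PN

open Polynomial

theorem norm_lt_iff {p : ℕ} [Fact p.Prime] (x : ℤ_[p]) : ‖x‖ < 1 ↔ PadicInt.toZMod x = 0 := by
  rw [← PadicInt.mem_nonunits, ← IsLocalRing.mem_maximalIdeal,
    ← PadicInt.ker_toZMod, RingHom.mem_ker]

theorem key {p : ℕ} [Fact p.Prime] (hp : p ≠ 2) (a b c : ℤ_[p]) (ha : ‖a‖ = 1) (u v : ZMod p)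
    (hu : u ≠ 0) (h : PadicInt.toZMod a * u ^ 2 + PadicInt.toZMod b * v ^ 2 = PadicInt.toZMod c) :
    ∃ z V : ℤ_[p], a * z ^ 2 + b * V ^ 2 = c := by
  obtain ⟨U, hU⟩ : ∃ U : ℤ_[p], PadicInt.toZMod U = u :=
    ⟨((u.val : ℕ) : ℤ_[p]), by rw [map_natCast, ZMod.natCast_zmod_val]⟩
  obtain ⟨V, hV⟩ : ∃ V : ℤ_[p], PadicInt.toZMod V = v :=
    ⟨((v.val : ℕ) : ℤ_[p]), by rw [map_natCast, ZMod.natCast_zmod_val]⟩
  have ha0 : PadicInt.toZMod a ≠ 0 := by
    intro h0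
    have := (norm_lt_iff a).2 h0
    rw [ha] at this
    exact lt_irrefl _ this
  have h2 : (2 : ZMod p) ≠ 0 := by
    intro h0
    have h1 : ((2 : ℕ) : ZMod p) = 0 := by exact_mod_cast h0
    rw [ZMod.natCast_eq_zero_iff] at h1
    exact hp ((Nat.prime_dvd_prime_iff_eq (Fact.out : p.Prime) Nat.prime_two).1 h1)
  have n2 : ‖2 * a * U‖ = 1 := by
    refine le_antisymm (PadicInt.norm_le_one _) ?_
    rw [← not_lt, norm_lt_iff]
    rw [map_mul, map_mul, hU, map_ofNat]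
    exact mul_ne_zero (mul_ne_zero h2 ha0) hu
  obtain ⟨s, hs⟩ : ∃ s : ℤ_[p], s = c - b * V ^ 2 := ⟨_, rfl⟩
  obtain ⟨F, hF⟩ : ∃ F : Polynomial ℤ_[p], F = C a * X ^ 2 - C s := ⟨_, rfl⟩
  have e1 : aeval U F = a * U ^ 2 - s := by
    rw [hF]
    simp
  have e2 : aeval U (derivative F) = 2 * a * U := by
    rw [hF]
    simp
    ring
  have n1 : ‖aeval U F‖ < ‖aeval U (derivative F)‖ ^ 2 := by
    rw [e1, e2, n2, one_pow, norm_lt_iff, hs]
    simp only [map_sub, map_mul, map_pow, hU, hV]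
    rw [← h]
    ring
  obtain ⟨z, hz, -⟩ := hensels_lemma n1
  refine ⟨z, V, ?_⟩
  have e3 : aeval z F = a * z ^ 2 - s := by
    rw [hF]
    simp
  rw [e3, hs] at hz
  linear_combination hz

theorem un3_ : Pool.Agent.N546.PN.S_UN3 := by
  intro p _ hp A B C hA hB hC
  have hex : ∃ u v : ZMod p, PadicInt.toZMod (⟨A, hA.le⟩ : ℤ_[p]) * u ^ 2 +
      PadicInt.toZMod (⟨B, hB.le⟩ : ℤ_[p]) * v ^ 2 = PadicInt.toZMod (⟨C, hC.le⟩ : ℤ_[p]) := by
    have ha : PadicInt.toZMod (⟨A, hA.le⟩ : ℤ_[p]) ≠ 0 := by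
      intro h0
      have := (norm_lt_iff (⟨A, hA.le⟩ : ℤ_[p])).2 h0
      rw [PadicInt.norm_def] at this
      simp only [hA] at this
      exact lt_irrefl _ this
    have hb : PadicInt.toZMod (⟨B, hB.le⟩ : ℤ_[p]) ≠ 0 := by
      intro h0
      have := (norm_lt_iff (⟨B, hB.le⟩ : ℤ_[p])).2 h0
      rw [PadicInt.norm_def] at this
      simp only [hB] at this
      exact lt_irrefl _ this
    generalize PadicInt.toZMod (⟨A, hA.le⟩ : ℤ_[p]) = a at *
    generalize PadicInt.toZMod (⟨B, hB.le⟩ : ℤ_[p]) = b at *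
    generalize PadicInt.toZMod (⟨C, hC.le⟩ : ℤ_[p]) = c at *
    have h1 : degree (Polynomial.C a * X ^ 2 : Polynomial (ZMod p)) = 2 := by
      rw [degree_C_mul ha, degree_X_pow]
      rfl
    have h2 : degree (Polynomial.C b * X ^ 2 - Polynomial.C c : Polynomial (ZMod p)) = 2 := by
      have h3 : degree (Polynomial.C b * X ^ 2 : Polynomial (ZMod p)) = 2 := by
        rw [degree_C_mul hb, degree_X_pow]
        rfl
      rw [degree_sub_eq_left_of_degree_lt, h3]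
      rw [h3]
      exact lt_of_le_of_lt degree_C_le (by decide)
    have hcard : Fintype.card (ZMod p) % 2 = 1 := by
      rw [ZMod.card]
      exact (Nat.Prime.eq_two_or_odd (Fact.out : p.Prime)).resolve_left hp
    obtain ⟨u, v, h⟩ := FiniteField.exists_root_sum_quadratic h1 h2 hcard
    refine ⟨u, v, ?_⟩
    simp only [eval_mul, eval_C, eval_pow, eval_X, eval_sub] at h
    linear_combination h
  obtain ⟨u, v, h⟩ := hex
  have hc0 : PadicInt.toZMod (⟨C, hC.le⟩ : ℤ_[p]) ≠ 0 := by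
    intro h0
    have := (norm_lt_iff (⟨C, hC.le⟩ : ℤ_[p])).2 h0
    rw [PadicInt.norm_def] at this
    simp only [hC] at this
    exact lt_irrefl _ this
  have huv : u ≠ 0 ∨ v ≠ 0 := by
    by_contra hcon
    push Not at hcon
    rw [hcon.1, hcon.2] at h
    apply hc0
    rw [← h]
    ring
  rcases huv with hu | hv
  · obtain ⟨z, V, hz⟩ := key hp ⟨A, hA.le⟩ ⟨B, hB.le⟩ ⟨C, hC.le⟩ hA u v hu h
    refine ⟨(z : ℚ_[p]), (V : ℚ_[p]), 1, Or.inr (Or.inr one_ne_zero), ?_⟩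
    have h3 := congrArg (fun x : ℤ_[p] => (x : ℚ_[p])) hz
    simp only [PadicInt.coe_add, PadicInt.coe_mul, PadicInt.coe_pow] at h3
    rw [h3]
    ring
  · obtain ⟨z, V, hz⟩ := key hp ⟨B, hB.le⟩ ⟨A, hA.le⟩ ⟨C, hC.le⟩ hB v u hv
      (by rw [← h]; ring)
    refine ⟨(V : ℚ_[p]), (z : ℚ_[p]), 1, Or.inr (Or.inr one_ne_zero), ?_⟩
    have h3 := congrArg (fun x : ℤ_[p] => (x : ℚ_[p])) hz
    simp only [PadicInt.coe_add, PadicInt.coe_mul, PadicInt.coe_pow] at h3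
    rw [add_comm, h3]
    ring

end Pool.Agent.N353.PN
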